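import Pool.Agent.Y245.FI.Alg

set_option autoImplicit false

/-!
# Fréchet modules without injective coresolutions
-/

namespace Pool.Agent.Y245.Withdrawn.NoInjectiveCoresolutions

open Pool.Agent.Y245.FI PowerSeries.WithPiTopology

universe u

section

variable {A : Type} [NonUnitalRing A] [Module ℂ A] [TopologicalSpace A]

/-- `0 → M → J 0 → J 1 → J 2 → ⋯` is a complex whose maps are morphisms of modules. -/
structure IsComplex (M : FrechetModule.{u} A) (J : ℕ → FrechetModule.{u} A)
    (ι : M.carrier →L[ℂ] (J 0).carrier)
    (d : ∀ k, (J k).carrier →L[ℂ] (J (k + 1)).carrier) : Prop where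
  isMorphism_ι : IsMorphism M (J 0) ι
  isMorphism_d : ∀ k, IsMorphism (J k) (J (k + 1)) (d k)
  d_ι : ∀ x, d 0 (ι x) = 0
  d_d : ∀ k x, d (k + 1) (d k x) = 0

/-- The linear maps `r`, `s` are a contracting homotopy of `0 → M → J 0 → J 1 → J 2 → ⋯`. -/
structure IsContraction (M : FrechetModule.{u} A) (J : ℕ → FrechetModule.{u} A)
    (ι : M.carrier →L[ℂ] (J 0).carrier)
    (d : ∀ k, (J k).carrier →L[ℂ] (J (k + 1)).carrier)
    (r : (J 0).carrier →L[ℂ] M.carrier)
    (s : ∀ k, (J (k + 1)).carrier →L[ℂ] (J k).carrier) : Prop where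
  r_ι : ∀ x, r (ι x) = x
  homotopy_zero : ∀ x, ι (r x) + s 0 (d 0 x) = x
  homotopy_succ : ∀ k x, d k (s k x) + s (k + 1) (d (k + 1) x) = x

/-- A coresolution `0 → M → J 0 → J 1 → J 2 → ⋯` of the Fréchet module `M`: a complex of Fréchet
modules and morphisms with a contracting homotopy made of continuous linear maps. -/
structure Coresolution (M : FrechetModule.{u} A) where
  /-- the modules -/
  J : ℕ → FrechetModule.{u} A
  /-- the augmentation -/
  ι : M.carrier →L[ℂ] (J 0).carrier
  /-- the differentials -/
  d : ∀ k, (J k).carrier →L[ℂ] (J (k + 1)).carrier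
  /-- the contracting homotopy in degree zero -/
  r : (J 0).carrier →L[ℂ] M.carrier
  /-- the contracting homotopy in the other degrees -/
  s : ∀ k, (J (k + 1)).carrier →L[ℂ] (J k).carrier
  isComplex : IsComplex M J ι d
  isContraction : IsContraction M J ι d r s

theorem nontrivial_J {M : FrechetModule.{u} A} (hM : Nontrivial M.carrier)
    (c : Coresolution M) : Nontrivial (c.J 0).carrier := by
  obtain ⟨x, hx⟩ := exists_ne (0 : M.carrier)
  refine ⟨c.ι x, 0, fun h => hx ?_⟩
  have := c.isContraction.r_ι x
  rw [h, map_zero] at this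
  exact this.symm

end

/-- the one-dimensional module with the action zero -/
noncomputable def trivialModule : FrechetModule.{0} ZeroAlg where
  carrier := ℂ
  isFrechet := isFrechet_complex
  act _ _ := 0
  add_act _ _ _ := (add_zero 0).symm
  act_add _ _ _ := (add_zero 0).symm
  smul_act _ _ _ := (smul_zero _).symm
  act_smul _ _ _ := (smul_zero _).symm
  mul_act _ _ _ := rfl
  continuous_act := continuous_const

/-- the algebra of formal power series as a module over itself -/
noncomputable def regularModule : FrechetModule.{0} (PowerSeries ℂ) where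
  carrier := PowerSeries ℂ
  isFrechet := isFrechet_powerSeries
  act a x := a * x
  add_act a b x := add_mul a b x
  act_add a x y := mul_add a x y
  smul_act c a x := smul_mul_assoc c a x
  act_smul c a x := mul_smul_comm c a x
  mul_act a b x := mul_assoc a b x
  continuous_act := continuous_mul_powerSeries

/-- (1) There is a commutative (non-unital) Fréchet algebra `A` with non-zero Fréchet modules such
that no non-zero Fréchet `A`-module has an injective coresolution. (2) There is a commutative
Fréchet algebra `A` with a unit `e` such that in the category of the Fréchet `A`-modules on which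
`e` is the identity there are non-zero modules but no non-zero module has an injective
coresolution. -/
theorem result :
    (∃ A : FrechetAlgebra, (∀ a b : A.carrier, a * b = b * a) ∧
      (∃ M : FrechetModule.{0} A.carrier, Nontrivial M.carrier) ∧
      ∀ M : FrechetModule.{u} A.carrier, Nontrivial M.carrier →
        ¬ ∃ c : Coresolution M, ∀ k, IsInjective (fun _ => True) (c.J k)) ∧
    (∃ (A : FrechetAlgebra) (e : A.carrier), (∀ a b : A.carrier, a * b = b * a) ∧
      (∀ a, e * a = a) ∧
      (∃ M : FrechetModule.{0} A.carrier, (∀ x, M.act e x = x) ∧ Nontrivial M.carrier) ∧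
      ∀ M : FrechetModule.{u} A.carrier, (∀ x, M.act e x = x) → Nontrivial M.carrier →
        ¬ ∃ c : Coresolution M, ∀ k, (∀ y, (c.J k).act e y = y) ∧
          IsInjective (fun Y => ∀ y, Y.act e y = y) (c.J k)) := by
  refine ⟨⟨zeroAlgebra, fun _ _ => rfl, ⟨trivialModule, (inferInstance : Nontrivial ℂ)⟩, ?_⟩,
    ⟨powerSeriesAlgebra, (1 : PowerSeries ℂ), fun a b => @mul_comm (PowerSeries ℂ) _ a b,
      fun a => @one_mul (PowerSeries ℂ) _ a,
      ⟨regularModule, fun x => @one_mul (PowerSeries ℂ) _ x,
        (inferInstance : Nontrivial (PowerSeries ℂ))⟩, ?_⟩⟩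
  · rintro M hM ⟨c, hc⟩
    exact not_isInjective_zeroAlg (c.J 0) (nontrivial_J hM c) (hc 0)
  · rintro M - hM ⟨c, hc⟩
    exact not_isInjective_powerSeries (c.J 0) (hc 0).1 (nontrivial_J hM c) (hc 0).2

end Pool.Agent.Y245.Withdrawn.NoInjectiveCoresolutions
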