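import Pool.Agent.Y245.FI.Alg

set_option autoImplicit false

/-!
# Fréchet algebras without non-zero injective Fréchet modules
-/

namespace Pool.Agent.Y245.Withdrawn.NoInjectiveModules

open Pool.Agent.Y245.FI

universe u

/-- (1) There is a commutative (non-unital) Fréchet algebra `A` such that no non-zero Fréchet
`A`-module is injective. (2) There is a commutative Fréchet algebra `A` with a unit `e` such that
in the category of the Fréchet `A`-modules on which `e` is the identity no non-zero module is
injective. -/
theorem result :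
    (∃ A : FrechetAlgebra, (∀ a b : A.carrier, a * b = b * a) ∧
      ∀ M : FrechetModule.{u} A.carrier, Nontrivial M.carrier →
        ¬ IsInjective (fun _ => True) M) ∧
    (∃ (A : FrechetAlgebra) (e : A.carrier), (∀ a b : A.carrier, a * b = b * a) ∧
      e ≠ 0 ∧ (∀ a, e * a = a) ∧
      ∀ M : FrechetModule.{u} A.carrier, (∀ x, M.act e x = x) → Nontrivial M.carrier →
        ¬ IsInjective (fun Y => ∀ y, Y.act e y = y) M) :=
  ⟨⟨zeroAlgebra, fun _ _ => rfl, not_isInjective_zeroAlg⟩,
    ⟨powerSeriesAlgebra, (1 : PowerSeries ℂ), fun a b => @mul_comm (PowerSeries ℂ) _ a b,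
      one_ne_zero (α := PowerSeries ℂ), fun a => @one_mul (PowerSeries ℂ) _ a,
      not_isInjective_powerSeries⟩⟩

end Pool.Agent.Y245.Withdrawn.NoInjectiveModules
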